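import Pool.Agent.Helper11.SB.Final

/-!
MP_b5f63d_co: the upper exponent of the kissing numbers is at most `1496 / 3765 < 0.39735`.
-/

set_option autoImplicit false

open Filter Metric

namespace Pool.Agent.Results.MP_b5f63d_co.KissingExponent

/-- `C` is the set of centres of closed unit balls in `ℝ^d`, each of which touches the closed unit
ball around the origin and has interior disjoint from it, with pairwise disjoint interiors. -/
def IsKissing (d : ℕ) (C : Finset (EuclideanSpace ℝ (Fin d))) : Prop :=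
  (∀ x ∈ C, (closedBall x 1 ∩ closedBall 0 1).Nonempty ∧ Disjoint (ball x 1) (ball 0 1)) ∧
    ∀ x ∈ C, ∀ y ∈ C, x ≠ y → Disjoint (ball x 1) (ball y 1)

/-- the kissing number `τ(d)` -/
noncomputable def tau (d : ℕ) : ℕ :=
  sSup {N : ℕ | ∃ C : Finset (EuclideanSpace ℝ (Fin d)), IsKissing d C ∧ C.card = N}

/-- `c_+ = limsup log_2 τ(d) / d` -/
noncomputable def cPlus : ℝ := limsup (fun d : ℕ => Real.logb 2 (tau d) / d) atTop

lemma isKissing_iff {d : ℕ} {C : Finset (EuclideanSpace ℝ (Fin d))} :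
    IsKissing d C ↔ (∀ x ∈ C, ‖x‖ = 2) ∧ ∀ x ∈ C, ∀ y ∈ C, x ≠ y → 2 ≤ dist x y := by
  have h : ∀ x y : EuclideanSpace ℝ (Fin d), Disjoint (ball x 1) (ball y 1) ↔ 2 ≤ dist x y := by
    intro x y
    rw [disjoint_ball_ball_iff one_pos one_pos]
    norm_num
  have h' : ∀ x : EuclideanSpace ℝ (Fin d),
      ((closedBall x 1 ∩ closedBall 0 1).Nonempty ∧ Disjoint (ball x 1) (ball 0 1)) ↔ ‖x‖ = 2 := by
    intro x
    rw [h, dist_zero_right]
    constructor
    · rintro ⟨⟨y, hy1, hy2⟩, h2⟩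
      rw [mem_closedBall] at hy1
      rw [mem_closedBall, dist_zero_right] at hy2
      have h3 : ‖x‖ ≤ ‖y‖ + dist y x := by
        rw [dist_eq_norm, ← norm_sub_rev x y]
        calc ‖x‖ = ‖y + (x - y)‖ := by congr 1; abel
          _ ≤ _ := norm_add_le _ _
      linarith
    · intro hx
      refine ⟨⟨(2⁻¹ : ℝ) • x, ?_, ?_⟩, hx.ge⟩
      · rw [mem_closedBall, dist_eq_norm]
        have : (2⁻¹ : ℝ) • x - x = (-2⁻¹ : ℝ) • x := by
          rw [← sub_eq_zero]
          module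
        rw [this, norm_smul, hx]
        norm_num
      · rw [mem_closedBall, dist_zero_right, norm_smul, hx]
        norm_num
  unfold IsKissing
  simp only [h']
  simp only [h]

lemma tau_eq (d : ℕ) : tau d = Pool.Agent.Helper11.SB.tau d := by
  unfold tau Pool.Agent.Helper11.SB.tau
  congr 1
  ext N
  constructor
  · rintro ⟨C, hC, rfl⟩
    exact ⟨C, rfl, isKissing_iff.1 hC⟩
  · rintro ⟨C, rfl, hC⟩
    exact ⟨C, isKissing_iff.2 hC, rfl⟩

/-- **The exponent of the kissing numbers.**  For all large `d` the number `τ(d)` is attained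
(so it is a genuine maximum) and it is at most `2 ^ (1496 d / 3765)`; hence
`c_+ ≤ 1496 / 3765 < 0.39735`. -/
theorem result :
    (∀ᶠ d : ℕ in atTop, (∃ C : Finset (EuclideanSpace ℝ (Fin d)), IsKissing d C ∧ C.card = tau d) ∧
      (∀ C : Finset (EuclideanSpace ℝ (Fin d)), IsKissing d C → C.card ≤ tau d) ∧
      1 ≤ tau d ∧ (tau d : ℝ) ≤ 2 ^ ((1496 / 3765 : ℝ) * d)) ∧
    cPlus ≤ 1496 / 3765 ∧ (1496 / 3765 : ℝ) < 0.39735 := by
  refine ⟨?_, ?_, by norm_num⟩
  · filter_upwards [Pool.Agent.Helper11.SB.codes_sixty, eventually_ge_atTop 1] with d hd hd1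
    have hB : ∀ N ∈ {N : ℕ | ∃ C : Finset (EuclideanSpace ℝ (Fin d)), IsKissing d C ∧ C.card = N},
        (N : ℝ) ≤ 2 ^ ((1496 / 3765 : ℝ) * d) := by
      rintro N ⟨C, hC, rfl⟩
      obtain ⟨h1, h2⟩ := isKissing_iff.1 hC
      obtain ⟨C', h3, h4⟩ := Pool.Agent.Helper11.SB.kiss_isCode h1 h2
      rw [← h3]
      exact hd C' h4
    have hbdd : BddAbove {N : ℕ | ∃ C : Finset (EuclideanSpace ℝ (Fin d)),
        IsKissing d C ∧ C.card = N} :=
      ⟨⌊(2 : ℝ) ^ ((1496 / 3765 : ℝ) * d)⌋₊, fun N hN => Nat.le_floor (hB N hN)⟩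
    have hne : {N : ℕ | ∃ C : Finset (EuclideanSpace ℝ (Fin d)), IsKissing d C ∧ C.card = N}.Nonempty :=
      ⟨0, ∅, ⟨by simp, by simp⟩, by simp⟩
    have hmem := Nat.sSup_mem hne hbdd
    refine ⟨hmem, fun C hC => le_csSup hbdd ⟨C, hC, rfl⟩, ?_, hB _ hmem⟩
    rw [tau_eq]
    exact Pool.Agent.Helper11.SB.one_le_tau hd1 hd
  · have h := Pool.Agent.Helper11.SB.kissing.2
    unfold cPlus
    simp only [tau_eq]
    exact h

end Pool.Agent.Results.MP_b5f63d_co.KissingExponent
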