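import Pool.Agent.Helper34.KU.Final
import Pool.Agent.Helper84.LLK.Main
import Pool.Agent.Helper86.LQ.Exact
import Pool.Agent.Helper85.LP.KPoint
import Pool.Agent.Helper9.LP.Sound

/-!
MP_b5f63d_co: no level `t ≤ δ d` of the Lasserre hierarchy, not even on top of
`k ≤ (2/√3)^((1-ε) d)` conditioned points, can show that the lower bound `(2/√3)^d` for the
kissing number of `ℝ^d` is sharp, even up to a factor `d^C`.
-/

set_option autoImplicit false

open scoped RealInnerProductSpace

namespace Pool.Agent.Results.MP_b5f63d_co.LinearLevels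

/-- The unit sphere of `ℝ^d`. -/
abbrev Sph (d : ℕ) : Type := Metric.sphere (0 : EuclideanSpace ℝ (Fin d)) 1

/-- Finite sets of points of the sphere with pairwise inner products at most `1/2`: the points in
which the balls of a kissing configuration touch the central ball. -/
def Separated {d : ℕ} (S : Finset (Sph d)) : Prop :=
  ∀ x ∈ S, ∀ y ∈ S, x ≠ y → ⟪(x : EuclideanSpace ℝ (Fin d)), y⟫ ≤ 1 / 2

open Classical in
/-- The operator of the hierarchy: the sum of `F Q J J'` over all sets `Q, J, J' ⊆ S` with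
`#Q ≤ k`, `#J ≤ t`, `#J' ≤ t` such that `S` is the disjoint union of `Q` and `J ∪ J'`. -/
noncomputable def opM {d : ℕ} (k t : ℕ)
    (F : Finset (Sph d) → Finset (Sph d) → Finset (Sph d) → ℝ) (S : Finset (Sph d)) : ℝ :=
  ∑ Q ∈ S.powerset, ∑ J ∈ S.powerset, ∑ J' ∈ S.powerset,
    if J ∪ J' = S \ Q ∧ Q.card ≤ k ∧ J.card ≤ t ∧ J'.card ≤ t then F Q J J' else 0

open Classical in
/-- Feasible solutions `F` of the level `t` of the Lasserre hierarchy with at most `k` conditioned
points (dual side) for the kissing number in dimension `d`: for every separated set `Q` with at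
most `k` points `F Q J J'` is a symmetric positive semidefinite kernel on the sets `J` with at most
`t` points such that `Q` and `J` are disjoint and `Q ∪ J` is separated, `F Q J J'` is a continuous
function of the points of `Q`, `J` and `J'`, and for every nonempty separated set `S` with at most
`k + 2 t` points `opM k t F S ≤ -1` if `#S = 1` and `opM k t F S ≤ 0` if `#S ≥ 2`.
For `k = 0` this is the Lasserre hierarchy in the form of de Laat and Vallentin (`ofLasserre`); for
`t = 1` it contains the `(k + 2)`-point bound of de Laat, Machado, de Oliveira Filho and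
Vallentin (`ofKPoint`), in particular for `k = 0` Delsarte's linear programming bound and for
`k = 1` the three-point bound of Bachoc and Vallentin. -/
structure IsFeasible (d k t : ℕ)
    (F : Finset (Sph d) → Finset (Sph d) → Finset (Sph d) → ℝ) : Prop where
  continuous : ∀ j p q, j ≤ k → p ≤ t → q ≤ t → ContinuousOn
    (fun w : (Fin j → Sph d) × (Fin p → Sph d) × (Fin q → Sph d) =>
      F (Finset.univ.image w.1) (Finset.univ.image w.2.1) (Finset.univ.image w.2.2))
    {w | (∀ a b, a ≠ b → ⟪(w.1 a : EuclideanSpace ℝ (Fin d)), w.1 b⟫ ≤ 1 / 2) ∧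
      (∀ a b, a ≠ b → ⟪(w.2.1 a : EuclideanSpace ℝ (Fin d)), w.2.1 b⟫ ≤ 1 / 2) ∧
      (∀ a b, a ≠ b → ⟪(w.2.2 a : EuclideanSpace ℝ (Fin d)), w.2.2 b⟫ ≤ 1 / 2) ∧
      (∀ a b, ⟪(w.1 a : EuclideanSpace ℝ (Fin d)), w.2.1 b⟫ ≤ 1 / 2) ∧
      ∀ a b, ⟪(w.1 a : EuclideanSpace ℝ (Fin d)), w.2.2 b⟫ ≤ 1 / 2}
  symm : ∀ Q S T, Q.card ≤ k → S.card ≤ t → T.card ≤ t → Disjoint Q S → Disjoint Q T →
    Separated (Q ∪ S) → Separated (Q ∪ T) → F Q S T = F Q T S
  psd : ∀ Q : Finset (Sph d), Q.card ≤ k → ∀ (n : ℕ) (S : Fin n → Finset (Sph d))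
    (c : Fin n → ℝ), (∀ i, (S i).card ≤ t ∧ Disjoint Q (S i) ∧ Separated (Q ∪ S i)) →
    0 ≤ ∑ i, ∑ j, c i * c j * F Q (S i) (S j)
  le : ∀ S : Finset (Sph d), S.Nonempty → S.card ≤ k + 2 * t → Separated S →
    opM k t F S ≤ if S.card = 1 then -1 else 0

/-- The bound for the kissing number that a feasible solution proves: `F(∅, ∅, ∅)`. -/
def value {d : ℕ} (F : Finset (Sph d) → Finset (Sph d) → Finset (Sph d) → ℝ) : ℝ := F ∅ ∅ ∅

lemma IsFeasible.toHelper {d k t : ℕ}
    {F : Finset (Sph d) → Finset (Sph d) → Finset (Sph d) → ℝ}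
    (hf : IsFeasible d k t F) : Pool.Agent.Helper85.LP.MFeas d k t F where
  cont := fun j p q hj hp hq => hf.continuous j p q hj hp hq
  symm := hf.symm
  psd := hf.psd
  le := fun S h1 h2 h3 => hf.le S h1 h2 h3

lemma IsFeasible.ofHelper {d k t : ℕ}
    {F : Finset (Sph d) → Finset (Sph d) → Finset (Sph d) → ℝ}
    (hf : Pool.Agent.Helper85.LP.MFeas d k t F) : IsFeasible d k t F where
  continuous := fun j p q hj hp hq => hf.cont j p q hj hp hq
  symm := hf.symm
  psd := hf.psd
  le := fun S h1 h2 h3 => hf.le S h1 h2 h3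

/-- Every feasible solution bounds the number of points of every kissing configuration (known;
not part of `result`, only a check of the definitions). -/
theorem sound {d k t : ℕ} (ht : 1 ≤ t)
    {F : Finset (Sph d) → Finset (Sph d) → Finset (Sph d) → ℝ} (hf : IsFeasible d k t F)
    {I : Finset (Sph d)} (hI : Separated I) : (I.card : ℝ) ≤ value F :=
  Pool.Agent.Helper9.LP.feasible_boundM (by omega) hf.toHelper hI

/-- If `n` bounds the number of points of every separated set, then with `k ≥ n - 1` conditioned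
points the bound `n` is attained, at every level `t ≥ 1`: with `tau(d)` conditioned points the
hierarchy is exact (easy; not part of `result`, only a check of the range of `k`). -/
theorem attained {d k t n : ℕ} (ht : 1 ≤ t) (hn : 1 ≤ n) (hk : n ≤ k + 1)
    (hS : ∀ S : Finset (Sph d), Separated S → S.card ≤ n) :
    ∃ F : Finset (Sph d) → Finset (Sph d) → Finset (Sph d) → ℝ,
      IsFeasible d k t F ∧ value F = n := by
  obtain ⟨F, hF, h⟩ := Pool.Agent.Helper86.LQ.exactM ht hn hk hS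
  exact ⟨F, IsFeasible.ofHelper hF, h⟩

/-- A check of the definitions: every feasible solution `K` of the level `t` of the Lasserre
hierarchy (`K(J, J')` symmetric, positive semidefinite and continuous on separated sets of at
most `t` points, `∑_{J ∪ J' = S} K(J, J') ≤ -1` for `#S = 1` and `≤ 0` for `2 ≤ #S ≤ 2 t`) is a
feasible solution with `k = 0`, with the same value. -/
theorem ofLasserre {d t : ℕ} {K : Finset (Sph d) → Finset (Sph d) → ℝ}
    (hK : Pool.Agent.Helper47.LB.LFeas d t K) :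
    IsFeasible d 0 t (fun _ J J' => K J J') ∧ value (fun _ J J' => K J J') = K ∅ ∅ :=
  ⟨IsFeasible.ofHelper (Pool.Agent.Helper85.LP.lasserre_mixed hK), rfl⟩

/-- A check of the definitions: every feasible solution `(T, lam)` of the `(k + 2)`-point bound
(as in our hand-in SdpSharpBarrier), of value `1 + lam`, gives a feasible solution with `k`
conditioned points and `t = 1`, with the same value. -/
theorem ofKPoint {d k : ℕ} {T : Finset (Sph d) → Sph d → Sph d → ℝ} {lam : ℝ}
    (hT : Pool.Agent.Helper47.KP.IsFeasible d (k + 2) T lam) (hlam : 0 < 1 + lam) :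
    ∃ F, IsFeasible d k 1 F ∧ value F = 1 + lam :=
  ⟨_, IsFeasible.ofHelper (Pool.Agent.Helper85.LP.kpoint_mixed hT hlam),
    Pool.Agent.Helper85.LP.kF_value hlam⟩

/-- For every `η < log2(2/√3)` and every `C` there are `δ > 0` and `d₀` such that for all
`d ≥ d₀`, `1 ≤ t ≤ δ d` and `k ≤ 2^(η d)` the value of every feasible solution is at least
`(2/√3)^d d^C` (a consequence of `result`). -/
theorem result_pow {η : ℝ} (hη : η < Real.logb 2 (2 / √3)) (C : ℝ) :
    ∃ δ : ℝ, 0 < δ ∧ ∃ d₀ : ℕ, ∀ d : ℕ, d₀ ≤ d → ∀ t k : ℕ, 1 ≤ t →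
    (t : ℝ) ≤ δ * d → (k : ℝ) ≤ 2 ^ (η * d) →
    ∀ F : Finset (Sph d) → Finset (Sph d) → Finset (Sph d) → ℝ, IsFeasible d k t F →
      (2 / √3) ^ d * (d : ℝ) ^ C ≤ value F := by
  obtain ⟨δ, hδ, d₀, h⟩ := Pool.Agent.Helper84.LLK.mixed_pow hη C
  exact ⟨δ, hδ, d₀, fun d hd t k ht htd hkd F hf => h d hd t k ht htd hkd F hf.toHelper⟩

/-- For the `(k + 2)`-point bounds the gain over `(2/√3)^d` is explicit: for `0 ≤ η < log2(2/√3)`,
all large `d` and `2 ≤ k ≤ 2^(η d)` the value `1 + lam` of every feasible solution `(T, lam)` of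
the `k`-point bound is at least `(2/√3)^d 2^((log2(2/√3) - η)² d/10)` (not part of `result`). -/
theorem kpoint_curve {η : ℝ} (hη0 : 0 ≤ η) (hη : η < Real.logb 2 (2 / √3)) :
    ∃ d₀ : ℕ, ∀ d : ℕ, d₀ ≤ d → ∀ k : ℕ, 2 ≤ k → (k : ℝ) ≤ 2 ^ (η * d) →
    ∀ (T : Finset (Sph d) → Sph d → Sph d → ℝ) (lam : ℝ),
      Pool.Agent.Helper47.KP.IsFeasible d k T lam →
      (2 / √3) ^ d * (2 : ℝ) ^ ((Real.logb 2 (2 / √3) - η) ^ 2 / 10 * d) ≤ 1 + lam := by
  obtain ⟨d₀, h⟩ := Pool.Agent.Helper34.KU.kpoint_barrierK hη0 hη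
  exact ⟨d₀, fun d hd k hk hkd T lam hT => by linarith [h d hd k hk hkd T lam hT]⟩

/-- For every `η < log2(2/√3)` there are `a, δ > 0` and `d₀` such that for all dimensions
`d ≥ d₀`, all levels `1 ≤ t ≤ δ d` and all `k ≤ 2^(η d)` every feasible solution of the level `t`
of the Lasserre hierarchy with at most `k` conditioned points for the kissing number in
dimension `d` has value at least `(2/√3)^d (1 + a t)^(a d/t)`, and, if also `k ≤ 2^(δ d)`, at least
`(2/√3)^d max (2^(0.095 d/t), (1 + t/40)^(0.24 d/t))`. -/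
theorem result : ∀ η : ℝ, η < Real.logb 2 (2 / √3) → ∃ a δ : ℝ, 0 < a ∧ 0 < δ ∧ ∃ d₀ : ℕ,
    ∀ d : ℕ, d₀ ≤ d → ∀ t k : ℕ, 1 ≤ t → (t : ℝ) ≤ δ * d → (k : ℝ) ≤ 2 ^ (η * d) →
    ∀ F : Finset (Sph d) → Finset (Sph d) → Finset (Sph d) → ℝ, IsFeasible d k t F →
      (2 / √3) ^ d * (1 + a * t) ^ (a * d / t) ≤ value F ∧
      ((k : ℝ) ≤ 2 ^ (δ * d) → (2 / √3) ^ d * max ((2 : ℝ) ^ ((0.095 : ℝ) * d / t))
        ((1 + (t : ℝ) / 40) ^ ((0.24 : ℝ) * d / t)) ≤ value F) := by
  intro η hη
  obtain ⟨a, δ, ha, hδ, d₀, h⟩ := Pool.Agent.Helper84.LLK.mixed_all hη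
  exact ⟨a, δ, ha, hδ, d₀, fun d hd t k ht htd hkd F hf => h d hd t k ht htd hkd F hf.toHelper⟩

end Pool.Agent.Results.MP_b5f63d_co.LinearLevels
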