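import Pool.Agent.Helper47.EB.Final
import Pool.Agent.Helper84.WIN.C

/-!
MP_b5f63d_co: the optimal value of Delsarte's linear program, and of every `k`-point semidefinite
program with `2 ≤ k ≤ 2^(δ d)`, for the kissing number of `ℝ^d` lies between `2^(0.3962 d)` and
`2^(1496 d / 3765) < 2^(0.39735 d)`.
-/

set_option autoImplicit false

open scoped RealInnerProductSpace

namespace Pool.Agent.Results.MP_b5f63d_co.SdpSharpBarrier

/-- The unit sphere of `ℝ^d`. -/
abbrev Sph (d : ℕ) : Type := Metric.sphere (0 : EuclideanSpace ℝ (Fin d)) 1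

/-- Finite sets of points of the sphere with pairwise inner products at most `1/2`: the points in
which the balls of a kissing configuration touch the central ball. -/
def Separated {d : ℕ} (S : Finset (Sph d)) : Prop :=
  ∀ x ∈ S, ∀ y ∈ S, x ≠ y → ⟪(x : EuclideanSpace ℝ (Fin d)), y⟫ ≤ 1 / 2

open Classical in
/-- The operator `B_k` of the `k`-point bound:
`B_k T (S) = ∑ T(Q, x, y)` over all `Q ⊆ S` with at most `k - 2` elements and all `x, y ∈ S` with
`Q ∪ {x, y} = S`. -/
noncomputable def opB {d : ℕ} (k : ℕ) (T : Finset (Sph d) → Sph d → Sph d → ℝ)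
    (S : Finset (Sph d)) : ℝ :=
  ∑ Q ∈ S.powerset with Q.card + 2 ≤ k, ∑ x ∈ S, ∑ y ∈ S, if Q ∪ {x, y} = S then T Q x y else 0

open Classical in
/-- Feasible solutions `(T, lam)` of the `k`-point semidefinite program `Δ_k` for the kissing
number in dimension `d` (de Laat, Machado, de Oliveira Filho, Vallentin): for every separated set
`Q` with at most `k - 2` elements `T(Q, ., .)` is a symmetric positive semidefinite kernel on the
sphere, `T(Q, x, y)` is a continuous function of `(Q, x, y)`, and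
`B_k T (S) ≤ lam` for `#S = 1`, `≤ -2` for `#S = 2`, `≤ 0` for `3 ≤ #S ≤ k`, for all separated
sets `S`. -/
structure IsFeasible (d k : ℕ) (T : Finset (Sph d) → Sph d → Sph d → ℝ) (lam : ℝ) : Prop where
  continuous : ∀ q, q + 2 ≤ k → ContinuousOn
    (fun p : (Fin q → Sph d) × Sph d × Sph d => T (Finset.univ.image p.1) p.2.1 p.2.2)
    {p | ∀ a b, a ≠ b → ⟪(p.1 a : EuclideanSpace ℝ (Fin d)), p.1 b⟫ ≤ 1 / 2}
  symm : ∀ Q, Q.card + 2 ≤ k → Separated Q → ∀ x y, T Q x y = T Q y x
  psd : ∀ Q, Q.card + 2 ≤ k → Separated Q → ∀ (n : ℕ) (x : Fin n → Sph d) (c : Fin n → ℝ),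
    0 ≤ ∑ i, ∑ j, c i * c j * T Q (x i) (x j)
  le : ∀ S : Finset (Sph d), S.Nonempty → S.card ≤ k → Separated S →
    opB k T S ≤ (if S.card = 1 then lam else 0) - (if S.card = 2 then 2 else 0)

/-- The bound for the kissing number that a feasible solution proves. -/
def value (lam : ℝ) : ℝ := 1 + lam

lemma IsFeasible.toHelper {d k : ℕ} {T : Finset (Sph d) → Sph d → Sph d → ℝ} {lam : ℝ}
    (hf : IsFeasible d k T lam) : Pool.Agent.Helper47.KP.IsFeasible d k T lam where
  cont := fun q hq => hf.continuous q hq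
  symm := hf.symm
  psd := hf.psd
  le := fun S h1 h2 h3 => hf.le S h1 h2 h3

/-- Every feasible solution bounds the number of points of every kissing configuration (known;
not part of `result`, only a check of the definitions). -/
theorem sound {d k : ℕ} (hk : 2 ≤ k) {T : Finset (Sph d) → Sph d → Sph d → ℝ} {lam : ℝ}
    (hf : IsFeasible d k T lam) {I : Finset (Sph d)} (hI : Separated I) (hne : I.Nonempty) :
    (I.card : ℝ) ≤ value lam :=
  Pool.Agent.Helper47.KP.feasible_bound hk hf.toHelper hI hne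

lemma IsFeasible.ofHelper {d k : ℕ} {T : Finset (Sph d) → Sph d → Sph d → ℝ} {lam : ℝ}
    (hf : Pool.Agent.Helper47.KP.IsFeasible d k T lam) : IsFeasible d k T lam where
  continuous := fun q hq => hf.cont q hq
  symm := hf.symm
  psd := hf.psd
  le := fun S h1 h2 h3 => hf.le S h1 h2 h3

/-- There are `δ > 0` and `d₀` such that for all dimensions `d ≥ d₀` and all `k ≥ 2`: the `k`-point
bound has a feasible solution of value at most `2^(1496 d / 3765)`, where
`1496 / 3765 < 0.39735`, and if `k ≤ 2^(δ d)` then every feasible solution of the `k`-point bound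
has value at least `2^(0.3962 d)`. -/
theorem result : ∃ δ : ℝ, 0 < δ ∧ ∃ d₀ : ℕ, ∀ d : ℕ, d₀ ≤ d → ∀ k : ℕ, 2 ≤ k →
    (∃ (T : Finset (Sph d) → Sph d → Sph d → ℝ) (lam : ℝ),
      IsFeasible d k T lam ∧ value lam ≤ 2 ^ ((1496 / 3765 : ℝ) * d)) ∧
    ((k : ℝ) ≤ 2 ^ (δ * d) → ∀ (T : Finset (Sph d) → Sph d → Sph d → ℝ) (lam : ℝ),
      IsFeasible d k T lam → (2 : ℝ) ^ ((0.3962 : ℝ) * d) ≤ value lam) := by
  obtain ⟨δ, hδ, d₀, h⟩ := Pool.Agent.Helper47.EB.kpoint_barrier3962
  obtain ⟨d₁, h'⟩ := Filter.eventually_atTop.1 Pool.Agent.Helper84.WIN.feasible_sixty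
  refine ⟨δ, hδ, max d₀ d₁, fun d hd k hk => ⟨?_, fun hkd T lam hf => ?_⟩⟩
  · obtain ⟨T, lam, h1, h2⟩ := h' d (le_trans (le_max_right _ _) hd) k hk
    exact ⟨T, lam, IsFeasible.ofHelper h1, h2⟩
  · have h2 := h d (le_trans (le_max_left _ _) hd) k hk hkd T lam hf.toHelper
    unfold value
    linarith

end Pool.Agent.Results.MP_b5f63d_co.SdpSharpBarrier
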